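import Pool.Agent.Run7.h278.LG.ZetaHalf

set_option autoImplicit false

/-!
# Linear independence and non-vanishing at the centre as the case of equality in one inequality

Let `F/ℚ` be a finite abelian extension, the fixed field of `H` in `ℚ(ζ_q)`; its characters are orthogonal or unitary, so
that statement 3 of the problem is empty for `F`.  Let
`A(u) = e^(u/2) ([F : ℚ] ∑_{n ≤ e^u, n mod q ∈ H} Λ(n) (1/n - e^(-u)) - u + c)`.  For every `s > 0` the mean value
`δ ∫_0^∞ e^(-δ u) cosh (s A(u)) du` has a limit `L` in `[0, ∞]` as `δ → 0+`, which is never smaller than the product `B` of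
`I_0 (2 s / (1/4 + γ²))` over the multiset `Γ_F`; and `L = B` exactly if the generalized Riemann hypothesis holds for `F`
and both statements 1 (linear independence) and 2 (`L(1/2, χ) ≠ 0` for `χ ≠ χ_0`) hold for `F`.  The same holds for
all finite Galois extensions with Artin's conjecture and without symplectic characters, and with arbitrary weights `d_χ`.
If there is a set `S` of symplectic characters, then on GRH and statement 1 the statements 2 and 3 with the constant `M_0`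
together are equivalent to the upper bounds `ℓ_d ≤ cosh (4 s M_0 ∑_{χ ∈ S} d_χ) B_d` for all weights `d`.
-/

namespace Pool.Agent.Results.MP_347b49_nt.CentralValuesMoments

open Filter Topology MeasureTheory Set DirichletCharacter
open scoped ENNReal ComplexConjugate
open Run7.h278.LG (LFun ordAt)

/-- the modified Bessel function `I_0` -/
noncomputable def I0 (y : ℝ) : ℝ := ∑' k : ℕ, ((y / 2) ^ k / (k.factorial : ℝ)) ^ 2

/-- the function `A(u)` for the coefficients `lam`, the pole order `m` and the constant `c` -/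
noncomputable def A (lam : ℕ → ℝ) (m c u : ℝ) : ℝ :=
  Real.exp (u / 2) * (∑ n ∈ Finset.Icc 1 ⌊Real.exp u⌋₊, lam n * (1 / (n : ℝ) - Real.exp (-u)) - m * u + c)

/-- the Abel mean of `cosh (s A(u))` -/
noncomputable def M (lam : ℕ → ℝ) (m c s δ : ℝ) : ℝ≥0∞ :=
  ∫⁻ u in Ioi (0 : ℝ), ENNReal.ofReal (δ * Real.exp (-δ * u) * Real.cosh (s * A lam m c u))

/-- the Dirichlet series of `lam` -/
noncomputable def D (lam : ℕ → ℝ) (σ : ℝ) : ℝ := ∑' n : ℕ, lam n / (n : ℝ) ^ σ

/-! ### Abelian fields -/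

section abelian

variable (q : ℕ) [NeZero q] (H : Subgroup (ZMod q)ˣ)

/-- the Dirichlet characters modulo `q` which are trivial on `H`: the characters of the Galois group of the
subfield `F` of `ℚ(ζ_q)` fixed by `H` -/
abbrev Chars : Type := {χ : DirichletCharacter ℂ q // ∀ h ∈ H, χ (h : ZMod q) = 1}

open Classical in
/-- `[(ℤ/q)ˣ : H] Λ(n)` if `n` modulo `q` belongs to `H`, otherwise `0` -/
noncomputable def lamH (n : ℕ) : ℝ :=
  if ∃ h ∈ H, ((h : (ZMod q)ˣ) : ZMod q) = (n : ZMod q) then H.index * ArithmeticFunction.vonMangoldt n else 0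

/-- the pairs of a character of `F` and a zero `ρ`, `0 < Re ρ < 1`, `Im ρ > 0`, of its L-function -/
abbrev ZerosH : Type := {p : Chars q H × ℂ // 0 < p.2.re ∧ p.2.re < 1 ∧ 0 < p.2.im ∧ LFunction p.1.1 p.2 = 0}

/-- the generalized Riemann hypothesis for the characters of `F` -/
def GRHH : Prop := ∀ (χ : Chars q H) (ρ : ℂ), 0 < ρ.re → ρ.re < 1 → LFunction χ.1 ρ = 0 → ρ.re = 1 / 2

/-- the lower bound -/
noncomputable def boundH (s : ℝ) : ℝ :=
  ∏' p : ZerosH q H, I0 (2 * s / (1 / 4 + p.1.2.im ^ 2)) ^ ordAt (LFunction p.1.1.1) p.1.2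

/-- statement 1: linear independence, with multiplicity -/
def IndependentH : Prop :=
  (∀ p : ZerosH q H, ordAt (LFunction p.1.1.1) p.1.2 = 1) ∧ LinearIndependent ℚ fun p : ZerosH q H => p.1.2.im

end abelian

/-! ### Families of L-functions with Artin's conjecture -/

section families

variable {J : Type} [Fintype J] (L : J → LFun) (d : J → ℕ)

/-- the coefficients of `-∑ d_j L_j'/L_j` -/
noncomputable def lam (n : ℕ) : ℝ := ArithmeticFunction.vonMangoldt n * (∑ j, (d j : ℂ) * (L j).c n).re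

/-- the total order of the pole at `1` -/
noncomputable def pole : ℝ := ∑ j, (d j : ℝ) * (L j).pole

/-- the pairs of a member of the family and a zero in the upper half plane of its completion -/
abbrev Zeros : Type := {p : J × ℂ // 0 < p.2.im ∧ (L p.1).Λ p.2 = 0}

/-- the Riemann hypothesis for the members of the family -/
def GRH : Prop := ∀ (j : J) (ρ : ℂ), (L j).Λ ρ = 0 → ρ.re = 1 / 2

/-- the lower bound -/
noncomputable def bound (s : ℝ) : ℝ :=
  ∏' p : Zeros L, I0 (2 * s * d p.1.1 / (1 / 4 + p.1.2.im ^ 2)) ^ ordAt (L p.1.1).Λ p.1.2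

/-- statement 1 for the family -/
def Independent : Prop :=
  (∀ p : Zeros L, ordAt (L p.1.1).Λ p.1.2 = 1) ∧ LinearIndependent ℚ fun p : Zeros L => p.1.2.im

end families

open Run7.h278 in
theorem I0_J (w : ℝ) : I0 (2 * w) = LM.J w := by
  unfold I0 LM.J
  refine tsum_congr fun k => ?_
  rw [mul_div_cancel_left₀ _ two_ne_zero]

/-! ### Proofs -/

open Run7.h278.LG Run7.h278

section

variable (q : ℕ) [NeZero q] (H : Subgroup (ZMod q)ˣ)

theorem lam_eq : lamD (fun χ : Ann H => χ.1) (fun _ => 1) = lamH q H := by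
  funext n
  unfold lamD lamH
  have h1 : ∑ χ : Ann H, (((1 : ℕ) : ℂ)) * χ.1 (n : ZMod q) = ∑ χ : Ann H, χ.1 (n : ZMod q) := by
    refine Finset.sum_congr rfl fun χ _ => ?_
    rw [Nat.cast_one, one_mul]
  rw [h1, sum_Ann]
  split_ifs
  · rw [Complex.natCast_re, mul_comm]
  · simp

theorem m_eq : mD (fun χ : Ann H => χ.1) (fun _ => 1) = 1 := by
  classical
  unfold mD
  have h1 : ∀ χ : Ann H, ((1 : ℕ) : ℝ) * (if χ.1 = 1 then (1 : ℝ) else 0) =
      if χ = (⟨1, fun h _ => MulChar.one_apply (Units.isUnit h)⟩ : Ann H) then 1 else 0 := by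
    intro χ
    rw [Nat.cast_one, one_mul]
    refine if_congr ?_ rfl rfl
    rw [Subtype.ext_iff]
  rw [Finset.sum_congr rfl fun χ _ => h1 χ]
  simp

theorem ord_zero_iff (χ : DirichletCharacter ℂ q) : analyticOrderNatAt (LFunction χ) (1 / 2) = 0 ↔ LFunction χ (1 / 2) ≠ 0 := by
  obtain ⟨l, r, N, X, hX⟩ := exists_mem χ
  have h1 := hX.order (s := 1 / 2) (by norm_num) (by norm_num)
  have h2 := hX.zero_iff' (s := 1 / 2) (by norm_num) (by norm_num)
  have hne : X 1 ≠ 0 := hX.one.one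
  have hd : Differentiable ℂ X := hX.one.raw.entire
  have h3 : analyticOrderAt X (1 / 2) ≠ ⊤ := by
    intro htop
    have h4 := analyticOrderAt_eq_top.1 htop
    have h5 : AnalyticOnNhd ℂ X univ := fun w _ => hd.analyticAt w
    exact hne (h5.eqOn_of_preconnected_of_eventuallyEq (g := 0) (fun w _ => analyticAt_const) isPreconnected_univ
      (mem_univ _) h4 (mem_univ 1))
  have h4 : ((analyticOrderNatAt X (1 / 2) : ℕ) : ℕ∞) = analyticOrderAt X (1 / 2) := Nat.cast_analyticOrderNatAt h3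
  have h5 := (hd.analyticAt (1 / 2)).analyticOrderAt_ne_zero
  rw [← h4] at h5
  have h6 : analyticOrderNatAt X (1 / 2) ≠ 0 ↔ X (1 / 2) = 0 := by
    rw [← h5]
    exact_mod_cast Iff.rfl
  have h7 : analyticOrderNatAt (LFunction χ) (1 / 2) = analyticOrderNatAt X (1 / 2) := h1.symm
  rw [h7, ne_eq, ← h2, ← h6, not_not]

theorem center_iff : rD (fun χ : Ann H => χ.1) (fun _ => 1) = 0 ↔ ∀ χ : Chars q H, χ.1 ≠ 1 → LFunction χ.1 (1 / 2) ≠ 0 := by
  unfold rD
  rw [Finset.sum_eq_zero_iff_of_nonneg fun _ _ => by positivity]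
  constructor
  · intro h χ _
    have h1 := h χ (Finset.mem_univ _)
    rw [Nat.cast_one, one_mul] at h1
    exact (ord_zero_iff q χ.1).1 (by exact_mod_cast h1)
  · intro h χ _
    rw [Nat.cast_one, one_mul]
    have h1 : analyticOrderNatAt (LFunction χ.1) (1 / 2) = 0 := by
      rw [ord_zero_iff]
      by_cases h2 : χ.1 = 1
      · rw [h2]
        exact triv_half q
      · exact h χ h2
    rw [h1, Nat.cast_zero]

theorem fun_eq (s : ℝ) : (fun p : PD (fun χ : Ann H => χ.1) =>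
      (LM.J (s * (((1 : ℕ) : ℝ) / (1 / 4 + p.1.2.im ^ 2)))) ^ analyticOrderNatAt (LFunction p.1.1.1) p.1.2) =
    fun p : ZerosH q H => I0 (2 * s / (1 / 4 + p.1.2.im ^ 2)) ^ ordAt (LFunction p.1.1.1) p.1.2 := by
  funext p
  have e : 2 * s / (1 / 4 + p.1.2.im ^ 2) = 2 * (s * (((1 : ℕ) : ℝ) / (1 / 4 + p.1.2.im ^ 2))) := by
    push_cast
    ring
  rw [e, I0_J]
  rfl

/-- abelian fields -/
theorem abelian : ∃ c : ℝ, Tendsto (fun σ : ℝ => 1 / (σ - 1) - D (lamH q H) σ) (𝓝[>] 1) (𝓝 (c - 1)) ∧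
      ∀ s : ℝ, 0 < s →
        (GRHH q H → Multipliable fun p : ZerosH q H => I0 (2 * s / (1 / 4 + p.1.2.im ^ 2)) ^ ordAt (LFunction p.1.1.1) p.1.2) ∧
        ∃ ℓ : ℝ≥0∞, Tendsto (M (lamH q H) 1 c s) (𝓝[>] 0) (𝓝 ℓ) ∧
          (ℓ < ⊤ ↔ GRHH q H) ∧
          ENNReal.ofReal (boundH q H s) ≤ ℓ ∧
          (ℓ = ENNReal.ofReal (boundH q H s) ↔
            GRHH q H ∧ IndependentH q H ∧ ∀ χ : Chars q H, χ.1 ≠ 1 → LFunction χ.1 (1 / 2) ≠ 0) := by
  obtain ⟨c, h1, h2⟩ := dir_main (q := q) (χ := fun χ : Ann H => χ.1) (d := fun _ => 1)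
    (fun _ => le_rfl) (invA H) (fun _ => rfl) (fun _ => rfl)
  rw [m_eq, lam_eq] at h1 h2
  refine ⟨c, h1, fun s hs => ?_⟩
  obtain ⟨h3, ℓ, h4, h5, h6, h7, -, -⟩ := h2 s hs
  have eb : CD (fun χ : Ann H => χ.1) (fun _ => 1) s = boundH q H s := by
    unfold boundH CD
    exact congrArg tprod (fun_eq q H s)
  rw [eb] at h6 h7
  have hM : GRHH q H → Multipliable fun p : ZerosH q H => I0 (2 * s / (1 / 4 + p.1.2.im ^ 2)) ^ ordAt (LFunction p.1.1.1) p.1.2 := by
    intro hG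
    have h10 := h3 hG
    rw [← fun_eq]
    exact h10.1
  have hC : GRHH q H → 1 ≤ boundH q H s := fun hG => one_le_tprod' (hM hG) fun p => one_le_pow₀ (by
    have e : 2 * s / (1 / 4 + p.1.2.im ^ 2) = 2 * (s / (1 / 4 + p.1.2.im ^ 2)) := by ring
    rw [e, I0_J]
    exact LM.one_le_J _)
  have hr : 0 ≤ rD (fun χ : Ann H => χ.1) (fun _ => 1) := Finset.sum_nonneg fun _ _ => by positivity
  obtain ⟨h8, h9⟩ := center_of hs hr hC h5 h6 h7
  rw [center_iff] at h9
  exact ⟨hM, ℓ, h4, h5, h8, h9⟩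

end

section

variable {J : Type} (L : J → LFun) (d : J → ℕ)

theorem fun_eq2 (s : ℝ) : (fun p : PO (fun j => (L j).Λ) =>
      (LM.J (s * ((d p.1.1 : ℝ) / (1 / 4 + p.1.2.im ^ 2)))) ^ WL.mu (L p.1.1).Λ p.1.2) =
    fun p : Zeros L => I0 (2 * s * d p.1.1 / (1 / 4 + p.1.2.im ^ 2)) ^ ordAt (L p.1.1).Λ p.1.2 := by
  funext p
  have e : 2 * s * d p.1.1 / (1 / 4 + p.1.2.im ^ 2) = 2 * (s * ((d p.1.1 : ℝ) / (1 / 4 + p.1.2.im ^ 2))) := by
    ring
  rw [e, I0_J]
  rfl

end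

/-- families -/
theorem families {J : Type} [Fintype J] (L : J → LFun) (d : J → ℕ) (hd : ∀ j, 1 ≤ d j)
    (hr : ∀ n, ArithmeticFunction.vonMangoldt n ≠ 0 → (∑ j, (d j : ℂ) * (L j).c n).im = 0) :
    ∃ c : ℝ, Tendsto (fun σ : ℝ => pole L d / (σ - 1) - D (lam L d) σ) (𝓝[>] 1) (𝓝 (c - pole L d)) ∧
      ∀ s : ℝ, 0 < s →
        (GRH L → Multipliable fun p : Zeros L => I0 (2 * s * d p.1.1 / (1 / 4 + p.1.2.im ^ 2)) ^ ordAt (L p.1.1).Λ p.1.2) ∧
        ∃ ℓ : ℝ≥0∞, Tendsto (M (lam L d) (pole L d) c s) (𝓝[>] 0) (𝓝 ℓ) ∧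
          (ℓ < ⊤ ↔ GRH L) ∧
          ENNReal.ofReal (bound L d s) ≤ ℓ ∧
          (ℓ = ENNReal.ofReal (bound L d s) ↔ GRH L ∧ Independent L ∧ ∀ j, (L j).Λ (1 / 2) ≠ 0) := by
  have F : Family (fun j => (L j).shifts) (fun j => (L j).pole) (fun j => (L j).N) (fun j => (L j).b) (fun j => (L j).c)
      (fun j => (L j).Λ) d := ⟨fun j => (L j).isOne, hr⟩
  have hl : ∀ n, |lamF (fun j => (L j).c) d n| ≤ dF (fun j => (L j).shifts) d * ArithmeticFunction.vonMangoldt n := by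
    obtain ⟨w, hD⟩ := F.rd
    exact hD.lam_le
  obtain ⟨c, h1, h2⟩ := F.main_center hd hl (cl_refl _) (fun _ => 0) (fun _ => Nat.zero_le _)
  refine ⟨c, h1, fun s hs => ?_⟩
  obtain ⟨h3, ℓ, h4, h5, h6, h7⟩ := h2 s hs
  have e0 : ∑ j : J, (d j : ℝ) * ((0 : ℕ) : ℝ) = 0 := by simp
  have eb : Real.cosh (4 * s * ∑ j : J, (d j : ℝ) * ((0 : ℕ) : ℝ)) * CP (fun j => (L j).Λ) d s = bound L d s := by
    rw [e0, mul_zero, Real.cosh_zero, one_mul]
    unfold bound CP
    exact congrArg tprod (fun_eq2 L d s)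
  rw [eb] at h6 h7
  have e1 : (∀ j, WL.mu (L j).Λ (1 / 2) = 0) ↔ ∀ j, (L j).Λ (1 / 2) ≠ 0 := by
    refine forall_congr' fun j => ?_
    rw [ne_eq, ← F.mu_ne j (1 / 2), not_not]
  rw [e1] at h7
  refine ⟨fun hG => ?_, ℓ, h4, h5, h6, h7⟩
  have h10 := h3 hG
  rw [← fun_eq2]
  exact h10

/-- the combinatorics of the weights -/
theorem weights {J : Type} [Fintype J] (τ : J ≃ J) (hττ : ∀ j, τ (τ j) = j) (S : Set J) (hS : ∀ j ∈ S, τ j = j) (M0 : ℕ) (o : J → ℕ) :
    (∀ d : J → ℕ, (∀ j, 1 ≤ d j) → (∀ j, d (τ j) = d j) →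
      ∑ j, d j * o j ≤ M0 * (open Classical in ∑ j, if j ∈ S then d j else 0)) ↔
    (∀ j, j ∉ S → o j = 0) ∧ ∀ j ∈ S, o j ≤ M0 := by
  classical
  constructor
  · intro h
    constructor
    · intro j hj
      by_contra h0
      have hτj : τ j ∉ S := fun h1 => hj (by
        have h2 := hS _ h1
        rw [hττ] at h2
        rwa [← h2] at h1)
      set K := M0 * ∑ j : J, (if j ∈ S then 1 else 0) with hK
      have h1 := h (fun i => 1 + K * ((if i = j then 1 else 0) + (if i = τ j then 1 else 0))) (fun i => Nat.le_add_right _ _) (fun i => by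
        have e1 : (τ i = j) ↔ (i = τ j) := ⟨fun e => by rw [← e, hττ], fun e => by rw [e, hττ]⟩
        have e2 : (τ i = τ j) ↔ (i = j) := τ.injective.eq_iff
        simp only [e1, e2]
        ring)
      have h2 : (∑ i, if i ∈ S then (1 + K * ((if i = j then 1 else 0) + (if i = τ j then 1 else 0))) else 0) =
          ∑ i : J, (if i ∈ S then 1 else 0) := by
        refine Finset.sum_congr rfl fun i _ => ?_
        split_ifs with h3 h4 h5 h5
        · exact absurd (h4 ▸ h3) hj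
        · exact absurd (h4 ▸ h3) hj
        · exact absurd (h5 ▸ h3) hτj
        · simp
        · rfl
      rw [h2, ← hK] at h1
      have h3 : (1 + K * ((if j = j then 1 else 0) + (if j = τ j then 1 else 0))) * o j ≤
          ∑ i, (1 + K * ((if i = j then 1 else 0) + (if i = τ j then 1 else 0))) * o i :=
        Finset.single_le_sum (f := fun i => (1 + K * ((if i = j then 1 else 0) + (if i = τ j then 1 else 0))) * o i)
          (fun _ _ => Nat.zero_le _) (Finset.mem_univ j)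
      rw [if_pos rfl] at h3
      have h4 : 1 ≤ o j := Nat.one_le_iff_ne_zero.2 h0
      have h5 : 1 + K ≤ (1 + K * (1 + if j = τ j then 1 else 0)) * o j := by
        calc 1 + K = (1 + K * 1) * 1 := by ring
          _ ≤ (1 + K * (1 + if j = τ j then 1 else 0)) * o j := by gcongr; exact Nat.le_add_right _ _
      omega
    · intro j hj
      by_contra h0
      push Not at h0
      set K := M0 * ∑ j : J, (if j ∈ S then 1 else 0) with hK
      have h1 := h (fun i => 1 + K * (if i = j then 1 else 0)) (fun i => Nat.le_add_right _ _) (fun i => by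
        have e1 : (τ i = j) ↔ (i = j) := ⟨fun e => by rw [← hττ i, e, hS j hj], fun e => by rw [e, hS j hj]⟩
        simp only [e1])
      have h2 : (∑ i, if i ∈ S then (1 + K * (if i = j then 1 else 0)) else 0) = (∑ i : J, (if i ∈ S then 1 else 0)) + K := by
        have e : ∀ i, (if i ∈ S then (1 + K * (if i = j then 1 else 0)) else 0) = (if i ∈ S then 1 else 0) + if i = j then K else 0 := by
          intro i
          by_cases h3 : i = j
          · rw [h3, if_pos hj, if_pos hj, if_pos rfl, if_pos rfl]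
            ring
          · rw [if_neg h3, if_neg h3]
            ring_nf
        rw [Finset.sum_congr rfl fun i _ => e i, Finset.sum_add_distrib]
        simp
      rw [h2] at h1
      have h3 : (1 + K * (if j = j then 1 else 0)) * o j ≤ ∑ i, (1 + K * (if i = j then 1 else 0)) * o i :=
        Finset.single_le_sum (f := fun i => (1 + K * (if i = j then 1 else 0)) * o i)
          (fun _ _ => Nat.zero_le _) (Finset.mem_univ j)
      rw [if_pos rfl, mul_one] at h3
      have h4 : (1 + K) * (M0 + 1) ≤ (1 + K) * o j := by gcongr; omega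
      have h5 : (1 + K) * (M0 + 1) = 1 + K + M0 + M0 * K := by ring
      rw [mul_add, ← hK] at h1
      omega
  · rintro ⟨h1, h2⟩ d _ _
    rw [Finset.mul_sum]
    refine Finset.sum_le_sum fun j _ => ?_
    split_ifs with h
    · rw [mul_comm]
      exact Nat.mul_le_mul_right _ (h2 j h)
    · rw [h1 j h]
      simp

open Classical in
/-- the bound for the orders at the centre -/
theorem orders {J : Type} [Fintype J] (L : J → LFun) (τ : J ≃ J) (hττ : ∀ j, τ (τ j) = j)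
    (hc : ∀ j n, (L (τ j)).c n = conj ((L j).c n)) (S : Set J) (hS : ∀ j ∈ S, τ j = j) (hG : GRH L) (hI : Independent L)
    (M0 : ℕ) (s : ℝ) (hs : 0 < s) :
    ((∀ j, j ∉ S → (L j).Λ (1 / 2) ≠ 0) ∧ ∀ j ∈ S, ordAt (L j).Λ (1 / 2) ≤ M0) ↔
      ∀ d : J → ℕ, (∀ j, 1 ≤ d j) → (∀ j, d (τ j) = d j) → ∀ (c : ℝ) (ℓ : ℝ≥0∞),
        Tendsto (fun σ : ℝ => pole L d / (σ - 1) - D (lam L d) σ) (𝓝[>] 1) (𝓝 (c - pole L d)) →
        Tendsto (M (lam L d) (pole L d) c s) (𝓝[>] 0) (𝓝 ℓ) →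
        ℓ ≤ ENNReal.ofReal (Real.cosh (4 * s * (M0 * ∑ j, if j ∈ S then (d j : ℝ) else 0)) * bound L d s) := by
  have hkey : ∀ d : J → ℕ, (∀ j, 1 ≤ d j) → (∀ j, d (τ j) = d j) →
      ((∀ (c : ℝ) (ℓ : ℝ≥0∞),
        Tendsto (fun σ : ℝ => pole L d / (σ - 1) - D (lam L d) σ) (𝓝[>] 1) (𝓝 (c - pole L d)) →
        Tendsto (M (lam L d) (pole L d) c s) (𝓝[>] 0) (𝓝 ℓ) →
        ℓ ≤ ENNReal.ofReal (Real.cosh (4 * s * (M0 * ∑ j, if j ∈ S then (d j : ℝ) else 0)) * bound L d s)) ↔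
      ∑ j, d j * ordAt (L j).Λ (1 / 2) ≤ M0 * ∑ j, if j ∈ S then d j else 0) := by
    intro d hd hdτ
    have hr : ∀ n, ArithmeticFunction.vonMangoldt n ≠ 0 → (∑ j, (d j : ℂ) * (L j).c n).im = 0 := by
      intro n _
      have h1 : conj (∑ j, (d j : ℂ) * (L j).c n) = ∑ j, (d j : ℂ) * (L j).c n := by
        rw [map_sum]
        refine Fintype.sum_equiv τ _ _ fun j => ?_
        rw [map_mul, map_natCast, hdτ, hc]
      exact Complex.conj_eq_iff_im.1 h1
    have F : Family (fun j => (L j).shifts) (fun j => (L j).pole) (fun j => (L j).N) (fun j => (L j).b) (fun j => (L j).c)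
        (fun j => (L j).Λ) d := ⟨fun j => (L j).isOne, hr⟩
    have hl : ∀ n, |lamF (fun j => (L j).c) d n| ≤ dF (fun j => (L j).shifts) d * ArithmeticFunction.vonMangoldt n := by
      obtain ⟨w, hD⟩ := F.rd
      exact hD.lam_le
    obtain ⟨c0, h1, h2⟩ := F.main hd hl (cl_refl _)
    obtain ⟨-, ℓ0, h4, -, -, h7, -, -⟩ := h2 s hs
    have eb : CP (fun j => (L j).Λ) d s = bound L d s := by
      unfold bound CP
      exact congrArg tprod (fun_eq2 L d s)
    have hLI : LIf (fun j => (L j).Λ) := hI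
    have h8 := h7.2 ⟨hG, hLI⟩
    rw [eb] at h8
    have hpos : 0 < bound L d s := by
      rw [← eb]
      exact F.CP_pos hd hG hs
    have hr0 : 0 ≤ rO (fun j => (L j).Λ) d := Finset.sum_nonneg fun j _ => by positivity
    have hS0 : 0 ≤ ∑ j, (if j ∈ S then (d j : ℝ) else 0) := Finset.sum_nonneg fun j _ => by split_ifs <;> positivity
    have hcmp : (ENNReal.ofReal (Real.cosh (4 * s * rO (fun j => (L j).Λ) d) * bound L d s) ≤
        ENNReal.ofReal (Real.cosh (4 * s * (M0 * ∑ j, if j ∈ S then (d j : ℝ) else 0)) * bound L d s)) ↔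
        ∑ j, d j * ordAt (L j).Λ (1 / 2) ≤ M0 * ∑ j, if j ∈ S then d j else 0 := by
      rw [ENNReal.ofReal_le_ofReal_iff (by
        have := Real.cosh_pos (4 * s * (M0 * ∑ j, if j ∈ S then (d j : ℝ) else 0))
        positivity), mul_le_mul_iff_of_pos_right hpos, Real.cosh_le_cosh, abs_of_nonneg (by positivity),
        abs_of_nonneg (by positivity), mul_le_mul_iff_of_pos_left (by positivity : 0 < 4 * s)]
      have e1 : rO (fun j => (L j).Λ) d = ((∑ j, d j * ordAt (L j).Λ (1 / 2) : ℕ) : ℝ) := by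
        unfold rO
        push_cast
        rfl
      have e2 : (M0 : ℝ) * ∑ j, (if j ∈ S then (d j : ℝ) else 0) = ((M0 * ∑ j, (if j ∈ S then d j else 0) : ℕ) : ℝ) := by
        push_cast
        rfl
      rw [e1, e2, Nat.cast_le]
    rw [← hcmp, ← h8]
    constructor
    · intro h
      exact h c0 ℓ0 h1 h4
    · intro h c ℓ hc1 hc2
      have e3 : c - pole L d = c0 - pole L d := tendsto_nhds_unique hc1 h1
      have e4 : c = c0 := by linarith
      rw [e4] at hc2
      rw [tendsto_nhds_unique hc2 h4]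
      exact h
  have h1 := weights τ hττ S hS M0 (fun j => ordAt (L j).Λ (1 / 2))
  have h2 : ∀ j, (L j).Λ (1 / 2) ≠ 0 ↔ ordAt (L j).Λ (1 / 2) = 0 := by
    intro j
    have hne := (L j).one_ne
    have hd := (L j).entire
    have h3 : analyticOrderAt (L j).Λ (1 / 2) ≠ ⊤ := by
      intro htop
      have h4 := analyticOrderAt_eq_top.1 htop
      have h5 : AnalyticOnNhd ℂ (L j).Λ univ := fun w _ => hd.analyticAt w
      exact hne (h5.eqOn_of_preconnected_of_eventuallyEq (g := 0) (fun w _ => analyticAt_const) isPreconnected_univ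
        (mem_univ _) h4 (mem_univ 1))
    have h4 : ((analyticOrderNatAt (L j).Λ (1 / 2) : ℕ) : ℕ∞) = analyticOrderAt (L j).Λ (1 / 2) := Nat.cast_analyticOrderNatAt h3
    have h5 := (hd.analyticAt (1 / 2)).analyticOrderAt_ne_zero
    rw [← h4] at h5
    have h6 : analyticOrderNatAt (L j).Λ (1 / 2) ≠ 0 ↔ (L j).Λ (1 / 2) = 0 := by
      rw [← h5]
      exact_mod_cast Iff.rfl
    unfold ordAt
    rw [ne_eq, ← h6, not_not]
  simp_rw [h2]
  rw [← h1]
  refine forall_congr' fun d => ?_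
  refine forall_congr' fun hd => ?_
  refine forall_congr' fun hdτ => ?_
  exact (hkey d hd hdτ).symm

open Classical in
/-- **The theorem.** -/
theorem result :
    (∀ (q : ℕ) [NeZero q] (H : Subgroup (ZMod q)ˣ),
      ∃ c : ℝ, Tendsto (fun σ : ℝ => 1 / (σ - 1) - D (lamH q H) σ) (𝓝[>] 1) (𝓝 (c - 1)) ∧
      ∀ s : ℝ, 0 < s →
        (GRHH q H → Multipliable fun p : ZerosH q H => I0 (2 * s / (1 / 4 + p.1.2.im ^ 2)) ^ ordAt (LFunction p.1.1.1) p.1.2) ∧
        ∃ ℓ : ℝ≥0∞, Tendsto (M (lamH q H) 1 c s) (𝓝[>] 0) (𝓝 ℓ) ∧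
          (ℓ < ⊤ ↔ GRHH q H) ∧
          ENNReal.ofReal (boundH q H s) ≤ ℓ ∧
          (ℓ = ENNReal.ofReal (boundH q H s) ↔
            GRHH q H ∧ IndependentH q H ∧ ∀ χ : Chars q H, χ.1 ≠ 1 → LFunction χ.1 (1 / 2) ≠ 0)) ∧
    (∀ (J : Type) [Fintype J] (L : J → LFun) (d : J → ℕ), (∀ j, 1 ≤ d j) →
      (∀ n, ArithmeticFunction.vonMangoldt n ≠ 0 → (∑ j, (d j : ℂ) * (L j).c n).im = 0) →
      ∃ c : ℝ, Tendsto (fun σ : ℝ => pole L d / (σ - 1) - D (lam L d) σ) (𝓝[>] 1) (𝓝 (c - pole L d)) ∧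
      ∀ s : ℝ, 0 < s →
        (GRH L → Multipliable fun p : Zeros L => I0 (2 * s * d p.1.1 / (1 / 4 + p.1.2.im ^ 2)) ^ ordAt (L p.1.1).Λ p.1.2) ∧
        ∃ ℓ : ℝ≥0∞, Tendsto (M (lam L d) (pole L d) c s) (𝓝[>] 0) (𝓝 ℓ) ∧
          (ℓ < ⊤ ↔ GRH L) ∧
          ENNReal.ofReal (bound L d s) ≤ ℓ ∧
          (ℓ = ENNReal.ofReal (bound L d s) ↔ GRH L ∧ Independent L ∧ ∀ j, (L j).Λ (1 / 2) ≠ 0)) ∧
    (∀ (J : Type) [Fintype J] (L : J → LFun) (τ : J ≃ J), (∀ j, τ (τ j) = j) → (∀ j n, (L (τ j)).c n = conj ((L j).c n)) →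
      ∀ S : Set J, (∀ j ∈ S, τ j = j) → GRH L → Independent L → ∀ (M0 : ℕ) (s : ℝ), 0 < s →
      (((∀ j, j ∉ S → (L j).Λ (1 / 2) ≠ 0) ∧ ∀ j ∈ S, ordAt (L j).Λ (1 / 2) ≤ M0) ↔
      ∀ d : J → ℕ, (∀ j, 1 ≤ d j) → (∀ j, d (τ j) = d j) → ∀ (c : ℝ) (ℓ : ℝ≥0∞),
        Tendsto (fun σ : ℝ => pole L d / (σ - 1) - D (lam L d) σ) (𝓝[>] 1) (𝓝 (c - pole L d)) →
        Tendsto (M (lam L d) (pole L d) c s) (𝓝[>] 0) (𝓝 ℓ) →
        ℓ ≤ ENNReal.ofReal (Real.cosh (4 * s * (M0 * ∑ j, if j ∈ S then (d j : ℝ) else 0)) * bound L d s))) :=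
  ⟨fun q _ H => abelian q H, fun _ _ L d hd hr => families L d hd hr,
    fun _ _ L τ h1 h2 S h3 h4 h5 M0 s hs => orders L τ h1 h2 S h3 h4 h5 M0 s hs⟩

end Pool.Agent.Results.MP_347b49_nt.CentralValuesMoments
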