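import Pool.Agent.Run7.h278.LG.ZetaHalf
import Pool.Agent.Run7.h278.LG.RateC

set_option autoImplicit false

/-!
# Effective linear independence, non-vanishing at the centre and the rate of convergence of moments

Let `F/ℚ` be a finite abelian extension, the fixed field of `H` in `ℚ(ζ_q)`; its characters are orthogonal or unitary, so
that statement 3 of the problem is empty for `F`.  Let
`A(u) = e^(u/2) ([F : ℚ] ∑_{n ≤ e^u, n mod q ∈ H} Λ(n) (1/n - e^(-u)) - u + c)` and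
`V δ = δ ∫_0^∞ e^(-δ u) A(u)^(2K) du`.  For every `K ≥ 1` the function `V` converges with a rate `O(δ^b)`, `b > 0`, to the
moment for independent phases, over the multiset `Γ_F`, exactly if the generalized Riemann hypothesis holds for `F`,
`Γ_F` has no linear relation of even length at most `2K` (and no multiple element), `L(1/2, χ) ≠ 0` for `χ ≠ χ_0`, and
the sums of `2K` numbers `±γ`, `γ ≤ X`, are zero or at least a power of `X`.  So all these rates together mean GRH, the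
statements 1 and 2 for `F`, and effective linear independence for every fixed length.  The same holds for all finite
Galois extensions with Artin's conjecture, with arbitrary weights `d_χ` and prescribed lower bounds `κ_χ` for the orders
at `1/2`.
-/

namespace Pool.Agent.Results.MP_347b49_nt.EffectiveCentral

open Filter Topology MeasureTheory Set DirichletCharacter
open scoped ENNReal ComplexConjugate
open Run7.h278.LG (LFun ordAt)

/-- the function `A(u)` for the coefficients `lam`, the pole order `m` and the constant `c` -/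
noncomputable def A (lam : ℕ → ℝ) (m c u : ℝ) : ℝ :=
  Real.exp (u / 2) * (∑ n ∈ Finset.Icc 1 ⌊Real.exp u⌋₊, lam n * (1 / (n : ℝ) - Real.exp (-u)) - m * u + c)

/-- the Abel mean of `(A(u) - k)^(2K)` -/
noncomputable def V (lam : ℕ → ℝ) (m c k : ℝ) (K : ℕ) (δ : ℝ) : ℝ≥0∞ :=
  ∫⁻ u in Ioi (0 : ℝ), ENNReal.ofReal (δ * Real.exp (-δ * u) * (A lam m c u - k) ^ (2 * K))

/-- the Dirichlet series of `lam` -/
noncomputable def D (lam : ℕ → ℝ) (σ : ℝ) : ℝ := ∑' n : ℕ, lam n / (n : ℝ) ^ σ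

/-- `v` is finite and converges to `L` with the rate `O(δ^c)` -/
def Rate (v : ℝ → ℝ≥0∞) (L c : ℝ) : Prop := ∃ C : ℝ, ∀ δ : ℝ, 0 < δ → δ < 1 → v δ < ⊤ ∧ |(v δ).toReal - L| ≤ C * δ ^ c

/-- the sums of `p` numbers `±γ` with `γ ∈ T`, `γ ≤ X` are zero or at least `c X^(-a)` in absolute value -/
def Effective (T : Set ℝ) (p : ℕ) (a : ℝ) : Prop := ∃ c : ℝ, 0 < c ∧ ∀ X : ℝ, 1 ≤ X → ∀ f : Fin p → ℝ,
  (∀ i, |f i| ∈ T ∧ |f i| ≤ X) → ∑ i, f i ≠ 0 → c * X ^ (-a) ≤ |∑ i, f i|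

/-- the `2K`-th moment for independent phases and the weights `w` -/
noncomputable def moment {ι : Type} (w : ι → ℝ) (K : ℕ) : ℝ :=
  (2 * K).factorial * ∑' n : {n : ι →₀ ℕ // n.degree = K}, (n.1.prod fun x k => w x ^ k / (k.factorial : ℝ)) ^ 2

/-- there is no linear relation of even length at most `p` between the `t x` -/
def NoRelation {ι : Type} (t : ι → ℝ) (p : ℕ) : Prop := ∀ m : ι →₀ ℤ, m ≠ 0 → (m.sum fun _ k => k.natAbs) ≤ p →
  Even (m.sum fun _ k => k.natAbs) → (m.sum fun x k => (k : ℝ) * t x) ≠ 0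

/-! ### Abelian fields -/

section abelian

variable (q : ℕ) [NeZero q] (H : Subgroup (ZMod q)ˣ)

/-- the Dirichlet characters modulo `q` which are trivial on `H`: the characters of the Galois group of the
subfield `F` of `ℚ(ζ_q)` fixed by `H` -/
abbrev Chars : Type := {χ : DirichletCharacter ℂ q // ∀ h ∈ H, χ (h : ZMod q) = 1}

open Classical in
/-- `[(ℤ/q)ˣ : H] Λ(n)` if `n` modulo `q` belongs to `H`, otherwise `0` -/
noncomputable def lamH (n : ℕ) : ℝ :=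
  if ∃ h ∈ H, ((h : (ZMod q)ˣ) : ZMod q) = (n : ZMod q) then H.index * ArithmeticFunction.vonMangoldt n else 0

/-- the pairs of a character of `F` and a zero `ρ`, `0 < Re ρ < 1`, `Im ρ > 0`, of its L-function -/
abbrev ZerosH : Type := {p : Chars q H × ℂ // 0 < p.2.re ∧ p.2.re < 1 ∧ 0 < p.2.im ∧ LFunction p.1.1 p.2 = 0}

/-- the same, repeated according to the order of the zero -/
abbrev MultiH : Type := Σ p : ZerosH q H, Fin (ordAt (LFunction p.1.1.1) p.1.2)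

/-- the generalized Riemann hypothesis for the characters of `F` -/
def GRHH : Prop := ∀ (χ : Chars q H) (ρ : ℂ), 0 < ρ.re → ρ.re < 1 → LFunction χ.1 ρ = 0 → ρ.re = 1 / 2

/-- these zeros are simple -/
def SimpleH : Prop := ∀ p : ZerosH q H, ordAt (LFunction p.1.1.1) p.1.2 = 1

/-- statement 2 -/
def NonzeroH : Prop := ∀ χ : Chars q H, χ.1 ≠ 1 → LFunction χ.1 (1 / 2) ≠ 0

/-- the set of the ordinates -/
def OrdsH : Set ℝ := {t : ℝ | 0 < t ∧ ∃ χ : Chars q H, LFunction χ.1 (1 / 2 + t * Complex.I) = 0}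

end abelian

/-! ### Families of L-functions with Artin's conjecture -/

section families

variable {J : Type} [Fintype J] (L : J → LFun) (d : J → ℕ)

/-- the coefficients of `-∑ d_j L_j'/L_j` -/
noncomputable def lam (n : ℕ) : ℝ := ArithmeticFunction.vonMangoldt n * (∑ j, (d j : ℂ) * (L j).c n).re

/-- the total order of the pole at `1` -/
noncomputable def pole : ℝ := ∑ j, (d j : ℝ) * (L j).pole

/-- the pairs of a member of the family and a zero in the upper half plane of its completion -/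
abbrev Zeros : Type := {p : J × ℂ // 0 < p.2.im ∧ (L p.1).Λ p.2 = 0}

/-- the same, repeated according to the order of the zero -/
abbrev Multi : Type := Σ p : Zeros L, Fin (ordAt (L p.1.1).Λ p.1.2)

/-- the Riemann hypothesis for the members of the family -/
def GRH : Prop := ∀ (j : J) (ρ : ℂ), (L j).Λ ρ = 0 → ρ.re = 1 / 2

/-- these zeros are simple -/
def Simple : Prop := ∀ p : Zeros L, ordAt (L p.1.1).Λ p.1.2 = 1

/-- the set of the ordinates -/
def Ords : Set ℝ := {t : ℝ | 0 < t ∧ ∃ j, (L j).Λ (1 / 2 + t * Complex.I) = 0}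

end families

/-! ### Proofs -/

open Run7.h278.LG Run7.h278

theorem rel_iff {ι : Type} (t : ι → ℝ) (K : ℕ) : ¬Rl t (2 * K) ↔ NoRelation t (2 * K) := by
  unfold Rl NoRelation
  constructor
  · intro h m h1 h2 h3 h4
    exact h ⟨m, h1, h4, h2, (even_two_mul K).add h3⟩
  · rintro h ⟨m, h1, h2, h3, h4⟩
    exact h m h1 h3 ((Nat.even_add.1 h4).1 (even_two_mul K)) h2

section

variable (q : ℕ) [NeZero q] (H : Subgroup (ZMod q)ˣ)

theorem lam_eq : lamD (fun χ : Ann H => χ.1) (fun _ => 1) = lamH q H := by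
  funext n
  unfold lamD lamH
  have h1 : ∑ χ : Ann H, (((1 : ℕ) : ℂ)) * χ.1 (n : ZMod q) = ∑ χ : Ann H, χ.1 (n : ZMod q) := by
    refine Finset.sum_congr rfl fun χ _ => ?_
    rw [Nat.cast_one, one_mul]
  rw [h1, sum_Ann]
  split_ifs
  · rw [Complex.natCast_re, mul_comm]
  · simp

theorem m_eq : mD (fun χ : Ann H => χ.1) (fun _ => 1) = 1 := by
  classical
  unfold mD
  have h1 : ∀ χ : Ann H, ((1 : ℕ) : ℝ) * (if χ.1 = 1 then (1 : ℝ) else 0) =
      if χ = (⟨1, fun h _ => MulChar.one_apply (Units.isUnit h)⟩ : Ann H) then 1 else 0 := by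
    intro χ
    rw [Nat.cast_one, one_mul]
    refine if_congr ?_ rfl rfl
    rw [Subtype.ext_iff]
  rw [Finset.sum_congr rfl fun χ _ => h1 χ]
  simp

theorem ord_zero_iff (χ : DirichletCharacter ℂ q) : analyticOrderNatAt (LFunction χ) (1 / 2) = 0 ↔ LFunction χ (1 / 2) ≠ 0 := by
  obtain ⟨l, r, N, X, hX⟩ := exists_mem χ
  have h1 := hX.order (s := 1 / 2) (by norm_num) (by norm_num)
  have h2 := hX.zero_iff' (s := 1 / 2) (by norm_num) (by norm_num)
  have hne : X 1 ≠ 0 := hX.one.one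
  have hd : Differentiable ℂ X := hX.one.raw.entire
  have h3 : analyticOrderAt X (1 / 2) ≠ ⊤ := by
    intro htop
    have h4 := analyticOrderAt_eq_top.1 htop
    have h5 : AnalyticOnNhd ℂ X univ := fun w _ => hd.analyticAt w
    exact hne (h5.eqOn_of_preconnected_of_eventuallyEq (g := 0) (fun w _ => analyticAt_const) isPreconnected_univ
      (mem_univ _) h4 (mem_univ 1))
  have h4 : ((analyticOrderNatAt X (1 / 2) : ℕ) : ℕ∞) = analyticOrderAt X (1 / 2) := Nat.cast_analyticOrderNatAt h3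
  have h5 := (hd.analyticAt (1 / 2)).analyticOrderAt_ne_zero
  rw [← h4] at h5
  have h6 : analyticOrderNatAt X (1 / 2) ≠ 0 ↔ X (1 / 2) = 0 := by
    rw [← h5]
    exact_mod_cast Iff.rfl
  have h7 : analyticOrderNatAt (LFunction χ) (1 / 2) = analyticOrderNatAt X (1 / 2) := h1.symm
  rw [h7, ne_eq, ← h2, ← h6, not_not]

theorem center_iff : (∀ χ : Ann H, analyticOrderNatAt (LFunction χ.1) (1 / 2) = 0) ↔ NonzeroH q H := by
  constructor
  · intro h χ _
    exact (ord_zero_iff q χ.1).1 (h χ)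
  · intro h χ
    rw [ord_zero_iff]
    by_cases h2 : χ.1 = 1
    · rw [h2]
      exact triv_half q
    · exact h χ h2

/-- abelian fields -/
theorem abelian : ∃ c : ℝ, Tendsto (fun σ : ℝ => 1 / (σ - 1) - D (lamH q H) σ) (𝓝[>] 1) (𝓝 (c - 1)) ∧
      (∀ K : ℕ, 1 ≤ K →
        (GRHH q H → Summable fun n : {n : MultiH q H →₀ ℕ // n.degree = K} =>
          (n.1.prod fun x k => (1 / (1 / 4 + x.1.1.2.im ^ 2)) ^ k / (k.factorial : ℝ)) ^ 2) ∧
        ((∃ b : ℝ, 0 < b ∧ Rate (V (lamH q H) 1 c 0 K) (moment (fun x : MultiH q H => 1 / (1 / 4 + x.1.1.2.im ^ 2)) K) b) ↔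
          GRHH q H ∧ (SimpleH q H ∧ NoRelation (fun p : ZerosH q H => p.1.2.im) (2 * K)) ∧
            (∃ a : ℝ, 0 < a ∧ Effective (OrdsH q H) (2 * K) a) ∧ NonzeroH q H)) ∧
      ((∀ K : ℕ, 1 ≤ K → ∃ b : ℝ, 0 < b ∧
          Rate (V (lamH q H) 1 c 0 K) (moment (fun x : MultiH q H => 1 / (1 / 4 + x.1.1.2.im ^ 2)) K) b) ↔
        GRHH q H ∧ (SimpleH q H ∧ LinearIndependent ℚ fun p : ZerosH q H => p.1.2.im) ∧
          (∀ p : ℕ, ∃ a : ℝ, 0 < a ∧ Effective (OrdsH q H) p a) ∧ NonzeroH q H) := by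
  obtain ⟨c, h1, h2, h3⟩ := dir_rate4 (q := q) (χ := fun χ : Ann H => χ.1) (d := fun _ => 1)
    (fun _ => le_rfl) (invA H) (fun _ => rfl) (fun _ => rfl) (fun _ => 0) (fun _ => Nat.zero_le _)
  rw [m_eq, lam_eq] at h1
  rw [m_eq, lam_eq, center_iff] at h2 h3
  simp only [Nat.cast_one, Nat.cast_zero, mul_zero, Finset.sum_const_zero, rel_iff] at h2 h3
  exact ⟨c, h1, h2, h3⟩

end

/-- families -/
theorem families {J : Type} [Fintype J] (L : J → LFun) (d κ : J → ℕ) (hd : ∀ j, 1 ≤ d j)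
    (hr : ∀ n, ArithmeticFunction.vonMangoldt n ≠ 0 → (∑ j, (d j : ℂ) * (L j).c n).im = 0)
    (hκ : ∀ j, κ j ≤ ordAt (L j).Λ (1 / 2)) :
    ∃ c : ℝ, Tendsto (fun σ : ℝ => pole L d / (σ - 1) - D (lam L d) σ) (𝓝[>] 1) (𝓝 (c - pole L d)) ∧
      (∀ K : ℕ, 1 ≤ K →
        (GRH L → Summable fun n : {n : Multi L →₀ ℕ // n.degree = K} =>
          (n.1.prod fun x k => ((d x.1.1.1 : ℝ) / (1 / 4 + x.1.1.2.im ^ 2)) ^ k / (k.factorial : ℝ)) ^ 2) ∧
        ((∃ b : ℝ, 0 < b ∧ Rate (V (lam L d) (pole L d) c (4 * ∑ j, (d j : ℝ) * κ j) K)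
            (moment (fun x : Multi L => (d x.1.1.1 : ℝ) / (1 / 4 + x.1.1.2.im ^ 2)) K) b) ↔
          GRH L ∧ (Simple L ∧ NoRelation (fun p : Zeros L => p.1.2.im) (2 * K)) ∧
            (∃ a : ℝ, 0 < a ∧ Effective (Ords L) (2 * K) a) ∧ ∀ j, ordAt (L j).Λ (1 / 2) = κ j)) ∧
      ((∀ K : ℕ, 1 ≤ K → ∃ b : ℝ, 0 < b ∧ Rate (V (lam L d) (pole L d) c (4 * ∑ j, (d j : ℝ) * κ j) K)
          (moment (fun x : Multi L => (d x.1.1.1 : ℝ) / (1 / 4 + x.1.1.2.im ^ 2)) K) b) ↔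
        GRH L ∧ (Simple L ∧ LinearIndependent ℚ fun p : Zeros L => p.1.2.im) ∧
          (∀ p : ℕ, ∃ a : ℝ, 0 < a ∧ Effective (Ords L) p a) ∧ ∀ j, ordAt (L j).Λ (1 / 2) = κ j) := by
  have F : Family (fun j => (L j).shifts) (fun j => (L j).pole) (fun j => (L j).N) (fun j => (L j).b) (fun j => (L j).c)
      (fun j => (L j).Λ) d := ⟨fun j => (L j).isOne, hr⟩
  have hl : ∀ n, |lamF (fun j => (L j).c) d n| ≤ dF (fun j => (L j).shifts) d * ArithmeticFunction.vonMangoldt n := by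
    obtain ⟨w, hD⟩ := F.rd
    exact hD.lam_le
  obtain ⟨c, h1, h2, h3⟩ := F.rate5 hd hl (cl_refl _) κ hκ
  simp only [rel_iff] at h2
  exact ⟨c, h1, h2, h3⟩

/-- **The theorem.** -/
theorem result :
    (∀ (q : ℕ) [NeZero q] (H : Subgroup (ZMod q)ˣ),
      ∃ c : ℝ, Tendsto (fun σ : ℝ => 1 / (σ - 1) - D (lamH q H) σ) (𝓝[>] 1) (𝓝 (c - 1)) ∧
      (∀ K : ℕ, 1 ≤ K →
        (GRHH q H → Summable fun n : {n : MultiH q H →₀ ℕ // n.degree = K} =>
          (n.1.prod fun x k => (1 / (1 / 4 + x.1.1.2.im ^ 2)) ^ k / (k.factorial : ℝ)) ^ 2) ∧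
        ((∃ b : ℝ, 0 < b ∧ Rate (V (lamH q H) 1 c 0 K) (moment (fun x : MultiH q H => 1 / (1 / 4 + x.1.1.2.im ^ 2)) K) b) ↔
          GRHH q H ∧ (SimpleH q H ∧ NoRelation (fun p : ZerosH q H => p.1.2.im) (2 * K)) ∧
            (∃ a : ℝ, 0 < a ∧ Effective (OrdsH q H) (2 * K) a) ∧ NonzeroH q H)) ∧
      ((∀ K : ℕ, 1 ≤ K → ∃ b : ℝ, 0 < b ∧
          Rate (V (lamH q H) 1 c 0 K) (moment (fun x : MultiH q H => 1 / (1 / 4 + x.1.1.2.im ^ 2)) K) b) ↔
        GRHH q H ∧ (SimpleH q H ∧ LinearIndependent ℚ fun p : ZerosH q H => p.1.2.im) ∧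
          (∀ p : ℕ, ∃ a : ℝ, 0 < a ∧ Effective (OrdsH q H) p a) ∧ NonzeroH q H)) ∧
    (∀ (J : Type) [Fintype J] (L : J → LFun) (d κ : J → ℕ), (∀ j, 1 ≤ d j) →
      (∀ n, ArithmeticFunction.vonMangoldt n ≠ 0 → (∑ j, (d j : ℂ) * (L j).c n).im = 0) →
      (∀ j, κ j ≤ ordAt (L j).Λ (1 / 2)) →
      ∃ c : ℝ, Tendsto (fun σ : ℝ => pole L d / (σ - 1) - D (lam L d) σ) (𝓝[>] 1) (𝓝 (c - pole L d)) ∧
      (∀ K : ℕ, 1 ≤ K →
        (GRH L → Summable fun n : {n : Multi L →₀ ℕ // n.degree = K} =>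
          (n.1.prod fun x k => ((d x.1.1.1 : ℝ) / (1 / 4 + x.1.1.2.im ^ 2)) ^ k / (k.factorial : ℝ)) ^ 2) ∧
        ((∃ b : ℝ, 0 < b ∧ Rate (V (lam L d) (pole L d) c (4 * ∑ j, (d j : ℝ) * κ j) K)
            (moment (fun x : Multi L => (d x.1.1.1 : ℝ) / (1 / 4 + x.1.1.2.im ^ 2)) K) b) ↔
          GRH L ∧ (Simple L ∧ NoRelation (fun p : Zeros L => p.1.2.im) (2 * K)) ∧
            (∃ a : ℝ, 0 < a ∧ Effective (Ords L) (2 * K) a) ∧ ∀ j, ordAt (L j).Λ (1 / 2) = κ j)) ∧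
      ((∀ K : ℕ, 1 ≤ K → ∃ b : ℝ, 0 < b ∧ Rate (V (lam L d) (pole L d) c (4 * ∑ j, (d j : ℝ) * κ j) K)
          (moment (fun x : Multi L => (d x.1.1.1 : ℝ) / (1 / 4 + x.1.1.2.im ^ 2)) K) b) ↔
        GRH L ∧ (Simple L ∧ LinearIndependent ℚ fun p : Zeros L => p.1.2.im) ∧
          (∀ p : ℕ, ∃ a : ℝ, 0 < a ∧ Effective (Ords L) p a) ∧ ∀ j, ordAt (L j).Λ (1 / 2) = κ j)) :=
  ⟨fun q _ H => abelian q H, fun _ _ L d κ hd hr hκ => families L d κ hd hr hκ⟩

end Pool.Agent.Results.MP_347b49_nt.EffectiveCentral
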