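import Pool.Agent.Run7.h343.PV.Ext

/-!
# A positive proportion of non-vanishing central values in thin cosets and thin Galois orbits

Statement 2 of the problem for one-dimensional characters. Let `χ` be primitive mod `q = p ^ ν`, `p` odd, and
let `H` be a group of characters mod `p ^ m`, `m < ν`, of bounded index, where `p ^ m ≥ q ^ (1/3 + δ)`. A
positive proportion of the values `L(1/2, χ θ)`, `θ` in `H`, do not vanish (if `χ H` contains even characters).

Examples: `H` = all characters mod `p ^ m` (index `1`); for fixed `p` and even `χ`, `H` = the characters of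
`p`-power order mod `p ^ m` (index `p - 1`): `χ H` is the orbit of `χ` under the Galois group over `ℚ(ζ)`,
`ζ` a primitive root of unity of order `(p - 1) p ^ (ν - m)`, which has `p ^ (m - 1)` members.

Proof. Mollified first and second moments (mollifier `∑ μ(l) (1 - log l / log Y) χθ(l) / √l`, `Y = q ^ η`). The
off-diagonal terms of the second moment by incomplete sums of `χ(n + p ^ m h) conj χ(n)`, the diagonal terms
by Selberg's quadratic form; the first moment by the localisation of the Gauss sums `τ(χ θ)` in a coset.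
-/

set_option autoImplicit false

namespace Pool.Agent.Results.MP_347b49_nt.PositiveProportionThinCosets

/-- **Theorem.** For every `δ > 0` and `d ≥ 1` there are `c > 0` and `ν₀` such that for all odd primes `p`, all
`ν ≥ ν₀`, all `m < ν` with `p ^ m ≥ (p ^ ν) ^ (1/3 + δ)`, all primitive Dirichlet characters `χ` mod `p ^ ν` and
all subgroups `H` of index `d` of the group of Dirichlet characters mod `p ^ m` such that `χ θ₀` is even for
some `θ₀` in `H`, at least `c p ^ m` of the characters `θ` in `H` satisfy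
`|L(1/2, χ θ)| ≥ c / (log p ^ ν) ^ (1/2)`. -/
theorem result : ∀ δ : ℝ, 0 < δ → ∀ d : ℕ, 1 ≤ d → ∃ c : ℝ, 0 < c ∧ ∃ ν₀ : ℕ,
    ∀ (p : ℕ) [Fact p.Prime], p ≠ 2 → ∀ (ν m : ℕ) (hmν : m < ν), ν₀ ≤ ν →
    ((p : ℝ) ^ ν) ^ (1 / 3 + δ) ≤ (p : ℝ) ^ m →
    ∀ χ : DirichletCharacter ℂ (p ^ ν), χ.IsPrimitive →
    ∀ H : Subgroup (DirichletCharacter ℂ (p ^ m)), H.index = d →
    (∃ θ₀ ∈ H, (χ * DirichletCharacter.changeLevel (pow_dvd_pow p hmν.le) θ₀).Even) →
    c * (p : ℝ) ^ m ≤ ({θ : DirichletCharacter ℂ (p ^ m) | θ ∈ H ∧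
      c / Real.sqrt (Real.log ((p : ℝ) ^ ν)) ≤
        ‖(χ * DirichletCharacter.changeLevel (pow_dvd_pow p hmν.le) θ).LFunction (1 / 2)‖}.ncard : ℝ) := by
  intro δ hδ d hd
  obtain ⟨c, hc, ν₀, h⟩ := Pool.Agent.Run7.h343.PV.ext_main hδ hd
  exact ⟨c, hc, ν₀, fun p _ hp2 ν m hmν hν hP χ hχ H hH h0 => h p hp2 ν m hmν hν hP χ hχ H hH h0⟩

end Pool.Agent.Results.MP_347b49_nt.PositiveProportionThinCosets
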