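import Pool.Agent.Run7.h278.LG.DirPow
import Pool.Agent.Results.MP_347b49_nt.CentralValuesMoments

set_option autoImplicit false

/-!
# Symmetric oscillation of a sum over primes and the central values of Artin L-functions

Let `F/ℚ` be a finite abelian extension, the fixed field of `H` in `ℚ(ζ_q)`, and let
`A(u) = e^(u/2) ([F : ℚ] ∑_{n ≤ e^u, n mod q ∈ H} Λ(n) (1/n - e^(-u)) - u + c)`.  The function `A` is bounded exactly if
the generalized Riemann hypothesis holds for `F`, and then `limsup A + liminf A ≥ 8 r`, `r` being the total order of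
vanishing at `1/2`.  It oscillates symmetrically (`A` is bounded and `liminf A = - limsup A`) exactly if the generalized
Riemann hypothesis and statement 2 (`L(1/2, χ) ≠ 0` for `χ ≠ χ_0`) hold for `F` and there is no relation
`∑ m_γ γ = 0` with integers `m_γ` of odd sum between the ordinates.  The same holds for families of Artin L-functions
with Artin's conjecture; a bound for the asymmetry for all weights yields the Riemann hypothesis and statements 2 and 3,
and is equivalent to them if there is no odd relation.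
-/

namespace Pool.Agent.Results.MP_347b49_nt.SymmetricOscillation

open Filter Topology MeasureTheory Set DirichletCharacter
open scoped ENNReal ComplexConjugate
open Run7.h278.LG (LFun ordAt)

/-- the function `A(u)` for the coefficients `lam`, the pole order `m` and the constant `c` -/
noncomputable def A (lam : ℕ → ℝ) (m c u : ℝ) : ℝ :=
  Real.exp (u / 2) * (∑ n ∈ Finset.Icc 1 ⌊Real.exp u⌋₊, lam n * (1 / (n : ℝ) - Real.exp (-u)) - m * u + c)

/-- the Dirichlet series of `lam` -/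
noncomputable def D (lam : ℕ → ℝ) (σ : ℝ) : ℝ := ∑' n : ℕ, lam n / (n : ℝ) ^ σ

/-- `c` is the constant of the coefficients `lam` with pole order `m` -/
def IsConst (lam : ℕ → ℝ) (m c : ℝ) : Prop := Tendsto (fun σ : ℝ => m / (σ - 1) - D lam σ) (𝓝[>] 1) (𝓝 (c - m))

/-- bounded on `(0, ∞)` -/
def Bounded (f : ℝ → ℝ) : Prop := ∃ B : ℝ, ∀ u : ℝ, 0 < u → |f u| ≤ B

/-- no linear relation with odd sum of the coefficients between the elements of `T` -/
def NoOdd (T : Set ℝ) : Prop := ∀ m : T →₀ ℤ, Odd (m.sum fun _ k => k) → (m.sum fun t k => (k : ℝ) * (t : ℝ)) ≠ 0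

/-! ### Abelian fields -/

section abelian

variable (q : ℕ) [NeZero q] (H : Subgroup (ZMod q)ˣ)

/-- the Dirichlet characters modulo `q` which are trivial on `H`: the characters of the Galois group of the
subfield `F` of `ℚ(ζ_q)` fixed by `H` -/
abbrev Chars : Type := {χ : DirichletCharacter ℂ q // ∀ h ∈ H, χ (h : ZMod q) = 1}

open Classical in
/-- `[(ℤ/q)ˣ : H] Λ(n)` if `n` modulo `q` belongs to `H`, otherwise `0` -/
noncomputable def lamH (n : ℕ) : ℝ :=
  if ∃ h ∈ H, ((h : (ZMod q)ˣ) : ZMod q) = (n : ZMod q) then H.index * ArithmeticFunction.vonMangoldt n else 0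

/-- the generalized Riemann hypothesis for the characters of `F` -/
def GRHH : Prop := ∀ (χ : Chars q H) (ρ : ℂ), 0 < ρ.re → ρ.re < 1 → LFunction χ.1 ρ = 0 → ρ.re = 1 / 2

/-- the positive ordinates on the critical line -/
def OrdsH : Set ℝ := {t : ℝ | 0 < t ∧ ∃ χ : Chars q H, LFunction χ.1 (1 / 2 + t * Complex.I) = 0}

/-- the total order of vanishing at `1/2 + i t` -/
noncomputable def totalH (t : ℝ) : ℝ := ∑ᶠ χ : Chars q H, (ordAt (LFunction χ.1) (1 / 2 + t * Complex.I) : ℝ)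

/-- the sum of `2 m_γ / (1/4 + γ²)` -/
noncomputable def SH : ℝ := ∑' t : OrdsH q H, 2 * (totalH q H t / (1 / 4 + (t : ℝ) ^ 2))

end abelian

/-! ### Families of L-functions with Artin's conjecture -/

section families

variable {J : Type} [Fintype J] (L : J → LFun) (d : J → ℕ)

/-- the coefficients of `-∑ d_j L_j'/L_j` -/
noncomputable def lam (n : ℕ) : ℝ := ArithmeticFunction.vonMangoldt n * (∑ j, (d j : ℂ) * (L j).c n).re

/-- the total order of the pole at `1` -/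
noncomputable def pole : ℝ := ∑ j, (d j : ℝ) * (L j).pole

/-- the Riemann hypothesis for the members of the family -/
def GRH : Prop := ∀ (j : J) (ρ : ℂ), (L j).Λ ρ = 0 → ρ.re = 1 / 2

/-- the positive ordinates on the critical line -/
def Ords : Set ℝ := {t : ℝ | 0 < t ∧ ∃ j : J, (L j).Λ (1 / 2 + t * Complex.I) = 0}

/-- the pairs of a member of the family and a zero in the upper half plane of its completion -/
abbrev Zeros : Type := {p : J × ℂ // 0 < p.2.im ∧ (L p.1).Λ p.2 = 0}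

/-- statement 1 for the family -/
def Independent : Prop :=
  (∀ p : Zeros L, ordAt (L p.1.1).Λ p.1.2 = 1) ∧ LinearIndependent ℚ fun p : Zeros L => p.1.2.im

end families

/-! ### Proofs -/

open Run7.h278.LG Run7.h278

theorem noOdd_iff (T : Set ℝ) : ¬Od (fun t : T => (t : ℝ)) ↔ NoOdd T := by
  unfold Od NoOdd
  constructor
  · intro h m h1 h2
    exact h ⟨m, h2, h1⟩
  · rintro h ⟨m, h1, h2⟩
    exact h m h2 h1

theorem abelian (q : ℕ) [NeZero q] (H : Subgroup (ZMod q)ˣ) :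
    ∃ c : ℝ, IsConst (lamH q H) 1 c ∧
      (Bounded (A (lamH q H) 1 c) ↔ GRHH q H) ∧
      (GRHH q H → Summable (fun t : OrdsH q H => 2 * (totalH q H t / (1 / 4 + (t : ℝ) ^ 2))) ∧
        limsup (A (lamH q H) 1 c) atTop = 4 * totalH q H 0 + SH q H ∧
        4 * totalH q H 0 - SH q H ≤ liminf (A (lamH q H) 1 c) atTop ∧
        (liminf (A (lamH q H) 1 c) atTop = 4 * totalH q H 0 - SH q H ↔ NoOdd (OrdsH q H))) ∧
      (Bounded (A (lamH q H) 1 c) ∧ liminf (A (lamH q H) 1 c) atTop = -limsup (A (lamH q H) 1 c) atTop ↔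
        GRHH q H ∧ NoOdd (OrdsH q H) ∧ ∀ χ : Chars q H, χ.1 ≠ 1 → LFunction χ.1 (1 / 2) ≠ 0) := by
  obtain ⟨c, h1, h2, h3, h4, h5⟩ := dir_sym (q := q) (χ := fun χ : Ann H => χ.1) (d := fun _ => 1)
    (fun _ => le_rfl) (invA H) (fun _ => rfl) (fun _ => rfl) (fun _ => 0) (fun _ => Nat.zero_le _)
  have hm : mD (fun χ : Ann H => χ.1) (fun _ => 1) = 1 := CentralValuesMoments.m_eq q H
  have hlam : lamD (fun χ : Ann H => χ.1) (fun _ => 1) = lamH q H := CentralValuesMoments.lam_eq q H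
  rw [hm, hlam] at h1 h2 h3 h4 h5
  have hr : rD (fun χ : Ann H => χ.1) (fun _ => 1) = totalH q H 0 := by
    unfold rD totalH
    rw [finsum_eq_sum_of_fintype]
    refine Finset.sum_congr rfl fun χ _ => ?_
    rw [Nat.cast_one, one_mul]
    unfold ordAt
    simp
  have hw : ∀ t : TD (fun χ : Ann H => χ.1), wD (fun χ : Ann H => χ.1) (fun _ => 1) t = totalH q H t / (1 / 4 + (t : ℝ) ^ 2) := by
    intro t
    unfold wD totalH
    rw [finsum_eq_sum_of_fintype]
    congr 1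
    refine Finset.sum_congr rfl fun χ _ => ?_
    rw [Nat.cast_one, one_mul]
    rfl
  have hS : ∑' t : TD (fun χ : Ann H => χ.1), 2 * wD (fun χ : Ann H => χ.1) (fun _ => 1) t = SH q H := by
    unfold SH
    exact tsum_congr fun t => by rw [hw]
  have hO : ¬Od (fun t : TD (fun χ : Ann H => χ.1) => (t : ℝ)) ↔ NoOdd (OrdsH q H) := noOdd_iff (OrdsH q H)
  have h0 : ∑ j : Ann H, (((1 : ℕ) : ℝ)) * ((0 : ℕ) : ℝ) = 0 := by simp
  rw [hS, hr, hO] at h3
  rw [h0, mul_zero, hO] at h5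
  refine ⟨c, h1, h2, fun hG => ⟨?_, (h3 hG).2⟩, ?_⟩
  · refine ((h3 hG).1.mul_left 2).congr fun t => ?_
    rw [hw]
  · have h6 : (∀ j : Ann H, analyticOrderNatAt (LFunction j.1) (1 / 2) = 0) ↔ ∀ χ : Chars q H, χ.1 ≠ 1 → LFunction χ.1 (1 / 2) ≠ 0 := by
      constructor
      · intro h χ _
        exact (CentralValuesMoments.ord_zero_iff q χ.1).1 (h χ)
      · intro h χ
        rw [CentralValuesMoments.ord_zero_iff]
        by_cases h2 : χ.1 = 1
        · rw [h2]
          exact triv_half q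
        · exact h χ h2
    rw [h6] at h5
    refine Iff.trans (and_congr_right fun _ => ?_) h5
    have e : A (lamH q H) 1 c = aL (lamH q H) 1 c := rfl
    rw [e]
    constructor
    · intro h
      rw [h]
      ring
    · intro h
      linarith

theorem li_noOdd (T : Set ℝ) (h : LinearIndependent ℚ fun t : T => (t : ℝ)) : NoOdd T := by
  intro m h1 h4
  rw [linearIndependent_iff'] at h
  have h0 : m = 0 := by
    ext t
    by_contra hne
    have hmem : t ∈ m.support := Finsupp.mem_support_iff.2 hne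
    have h7 := h m.support (fun t => (m t : ℚ)) (by
      have h8 : ∑ t ∈ m.support, (m t : ℝ) * (t : ℝ) = 0 := h4
      refine Eq.trans ?_ h8
      refine Finset.sum_congr rfl fun t _ => ?_
      rw [Rat.smul_def]
      push_cast
      rfl) t hmem
    exact hne (by exact_mod_cast h7)
  rw [h0] at h1
  simp at h1

theorem independent_noOdd {J : Type} (L : J → LFun) (h : Independent L) : NoOdd (Ords L) := by
  refine li_noOdd _ ?_
  have h2 := h.2.comp (fun t : Ords L => (⟨(t.2.2.choose, 1 / 2 + (t : ℝ) * Complex.I), by simpa using t.2.1, t.2.2.choose_spec⟩ : Zeros L)) (by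
    intro t t' htt
    have h3 := congrArg (fun p : Zeros L => p.1.2.im) htt
    simp at h3
    exact Subtype.ext h3)
  convert h2 using 2 with t
  simp

section

variable {J : Type} [Fintype J] (L : J → LFun) (d : J → ℕ)

/-- the description by the general theorem -/
theorem key (hd : ∀ j, 1 ≤ d j)
    (hr : ∀ n, ArithmeticFunction.vonMangoldt n ≠ 0 → (∑ j, (d j : ℂ) * (L j).c n).im = 0) :
    ∃ c : ℝ, IsConst (lam L d) (pole L d) c ∧
      (Bounded (A (lam L d) (pole L d) c) ↔ GRH L) ∧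
      (GRH L → 8 * ∑ j, (d j : ℝ) * ordAt (L j).Λ (1 / 2) ≤
        limsup (A (lam L d) (pole L d) c) atTop + liminf (A (lam L d) (pole L d) c) atTop) ∧
      (GRH L → NoOdd (Ords L) → 8 * ∑ j, (d j : ℝ) * ordAt (L j).Λ (1 / 2) =
        limsup (A (lam L d) (pole L d) c) atTop + liminf (A (lam L d) (pole L d) c) atTop) ∧
      (Bounded (A (lam L d) (pole L d) c) ∧
        liminf (A (lam L d) (pole L d) c) atTop = -limsup (A (lam L d) (pole L d) c) atTop ↔
        GRH L ∧ NoOdd (Ords L) ∧ ∀ j, (L j).Λ (1 / 2) ≠ 0) := by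
  have F : Family (fun j => (L j).shifts) (fun j => (L j).pole) (fun j => (L j).N) (fun j => (L j).b) (fun j => (L j).c)
      (fun j => (L j).Λ) d := ⟨fun j => (L j).isOne, hr⟩
  have hl : ∀ n, |lamF (fun j => (L j).c) d n| ≤ dF (fun j => (L j).shifts) d * ArithmeticFunction.vonMangoldt n := by
    obtain ⟨w, hD⟩ := F.rd
    exact hD.lam_le
  obtain ⟨c, h1, h2, h3, -, h5⟩ := F.sym hd hl (cl_refl _) (fun _ => 0) (fun _ => Nat.zero_le _)
  have e0 : ∑ j : J, (d j : ℝ) * ((0 : ℕ) : ℝ) = 0 := by simp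
  have hO : ¬Od (fun t : TO (fun j => (L j).Λ) => (t : ℝ)) ↔ NoOdd (Ords L) := noOdd_iff (Ords L)
  have e1 : (∀ j, WL.mu (L j).Λ (1 / 2) = 0) ↔ ∀ j, (L j).Λ (1 / 2) ≠ 0 := by
    refine forall_congr' fun j => ?_
    rw [ne_eq, ← F.mu_ne j (1 / 2), not_not]
  have eA : A (lam L d) (pole L d) c = aL (lamF (fun j => (L j).c) d) (mF (fun j => (L j).pole) d) c := rfl
  have er : ∑ j, (d j : ℝ) * ordAt (L j).Λ (1 / 2) = rO (fun j => (L j).Λ) d := rfl
  rw [e0, mul_zero, hO, e1] at h5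
  rw [hO] at h3
  refine ⟨c, h1, h2, fun hG => ?_, fun hG hN => ?_, ?_⟩
  · obtain ⟨-, g1, g2, -⟩ := h3 hG
    rw [eA, er, g1]
    linarith
  · obtain ⟨-, g1, g2, g3⟩ := h3 hG
    rw [eA, er, g1, g3.2 hN]
    ring
  · refine Iff.trans (and_congr_right fun _ => ?_) h5
    rw [eA]
    constructor
    · intro h
      rw [h]
      ring
    · intro h
      linarith

end

open Classical in
/-- the bound for the orders at the centre -/
theorem orders {J : Type} [Fintype J] (L : J → LFun) (τ : J ≃ J) (hττ : ∀ j, τ (τ j) = j)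
    (hc : ∀ j n, (L (τ j)).c n = conj ((L j).c n)) (S : Set J) (hS : ∀ j ∈ S, τ j = j) (M0 : ℕ) :
    ((∀ d : J → ℕ, (∀ j, 1 ≤ d j) → (∀ j, d (τ j) = d j) → ∀ c : ℝ, IsConst (lam L d) (pole L d) c →
        Bounded (A (lam L d) (pole L d) c) ∧
        limsup (A (lam L d) (pole L d) c) atTop + liminf (A (lam L d) (pole L d) c) atTop ≤
          8 * (M0 * ∑ j, if j ∈ S then (d j : ℝ) else 0)) →
      GRH L ∧ (∀ j, j ∉ S → (L j).Λ (1 / 2) ≠ 0) ∧ ∀ j ∈ S, ordAt (L j).Λ (1 / 2) ≤ M0) ∧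
    (NoOdd (Ords L) → GRH L ∧ (∀ j, j ∉ S → (L j).Λ (1 / 2) ≠ 0) ∧ (∀ j ∈ S, ordAt (L j).Λ (1 / 2) ≤ M0) →
      ∀ d : J → ℕ, (∀ j, 1 ≤ d j) → (∀ j, d (τ j) = d j) → ∀ c : ℝ, IsConst (lam L d) (pole L d) c →
        Bounded (A (lam L d) (pole L d) c) ∧
        limsup (A (lam L d) (pole L d) c) atTop + liminf (A (lam L d) (pole L d) c) atTop ≤
          8 * (M0 * ∑ j, if j ∈ S then (d j : ℝ) else 0)) := by
  have hkey : ∀ d : J → ℕ, (∀ j, 1 ≤ d j) → (∀ j, d (τ j) = d j) → ∃ c0 : ℝ, IsConst (lam L d) (pole L d) c0 ∧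
      (∀ c : ℝ, IsConst (lam L d) (pole L d) c → c = c0) ∧
      (Bounded (A (lam L d) (pole L d) c0) ↔ GRH L) ∧
      (GRH L → 8 * ∑ j, (d j : ℝ) * ordAt (L j).Λ (1 / 2) ≤
        limsup (A (lam L d) (pole L d) c0) atTop + liminf (A (lam L d) (pole L d) c0) atTop) ∧
      (GRH L → NoOdd (Ords L) → 8 * ∑ j, (d j : ℝ) * ordAt (L j).Λ (1 / 2) =
        limsup (A (lam L d) (pole L d) c0) atTop + liminf (A (lam L d) (pole L d) c0) atTop) := by
    intro d hd hdτ
    have hr : ∀ n, ArithmeticFunction.vonMangoldt n ≠ 0 → (∑ j, (d j : ℂ) * (L j).c n).im = 0 := by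
      intro n _
      have h1 : conj (∑ j, (d j : ℂ) * (L j).c n) = ∑ j, (d j : ℂ) * (L j).c n := by
        rw [map_sum]
        refine Fintype.sum_equiv τ _ _ fun j => ?_
        rw [map_mul, map_natCast, hdτ, hc]
      exact Complex.conj_eq_iff_im.1 h1
    obtain ⟨c0, h1, h2, h3, h4, -⟩ := key L d hd hr
    refine ⟨c0, h1, fun c hc1 => ?_, h2, h3, h4⟩
    have e3 : c - pole L d = c0 - pole L d := tendsto_nhds_unique hc1 h1
    linarith
  have h1 := CentralValuesMoments.weights τ hττ S hS M0 (fun j => ordAt (L j).Λ (1 / 2))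
  have h2 : ∀ j, (L j).Λ (1 / 2) ≠ 0 ↔ ordAt (L j).Λ (1 / 2) = 0 := by
    intro j
    have hne := (L j).one_ne
    have hd := (L j).entire
    have h3 : analyticOrderAt (L j).Λ (1 / 2) ≠ ⊤ := by
      intro htop
      have h4 := analyticOrderAt_eq_top.1 htop
      have h5 : AnalyticOnNhd ℂ (L j).Λ univ := fun w _ => hd.analyticAt w
      exact hne (h5.eqOn_of_preconnected_of_eventuallyEq (g := 0) (fun w _ => analyticAt_const) isPreconnected_univ
        (mem_univ _) h4 (mem_univ 1))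
    have h4 : ((analyticOrderNatAt (L j).Λ (1 / 2) : ℕ) : ℕ∞) = analyticOrderAt (L j).Λ (1 / 2) := Nat.cast_analyticOrderNatAt h3
    have h5 := (hd.analyticAt (1 / 2)).analyticOrderAt_ne_zero
    rw [← h4] at h5
    have h6 : analyticOrderNatAt (L j).Λ (1 / 2) ≠ 0 ↔ (L j).Λ (1 / 2) = 0 := by
      rw [← h5]
      exact_mod_cast Iff.rfl
    unfold ordAt
    rw [ne_eq, ← h6, not_not]
  simp_rw [h2]
  have hcast : ∀ d : J → ℕ, ((∑ j, (d j : ℝ) * (ordAt (L j).Λ (1 / 2) : ℕ)) ≤ (M0 : ℝ) * ∑ j, (if j ∈ S then (d j : ℝ) else 0)) ↔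
      ∑ j, d j * ordAt (L j).Λ (1 / 2) ≤ M0 * ∑ j, if j ∈ S then d j else 0 := by
    intro d
    have e1 : (∑ j, (d j : ℝ) * (ordAt (L j).Λ (1 / 2) : ℕ)) = ((∑ j, d j * ordAt (L j).Λ (1 / 2) : ℕ) : ℝ) := by
      push_cast
      rfl
    have e2 : (M0 : ℝ) * ∑ j, (if j ∈ S then (d j : ℝ) else 0) = ((M0 * ∑ j, (if j ∈ S then d j else 0) : ℕ) : ℝ) := by
      push_cast
      rfl
    rw [e1, e2, Nat.cast_le]
  constructor
  · intro h
    have hG : GRH L := by
      obtain ⟨c0, a1, -, a2, -⟩ := hkey (fun _ => 1) (fun _ => le_rfl) (fun _ => rfl)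
      exact a2.1 (h (fun _ => 1) (fun _ => le_rfl) (fun _ => rfl) c0 a1).1
    refine ⟨hG, h1.1 fun d hd hdτ => ?_⟩
    obtain ⟨c0, a1, -, -, a3, -⟩ := hkey d hd hdτ
    have a4 := (h d hd hdτ c0 a1).2
    have a5 := a3 hG
    exact (hcast d).1 (by linarith)
  · rintro hN ⟨hG, h3, h4⟩ d hd hdτ c hc1
    obtain ⟨c0, a1, a0, a2, a3, a4⟩ := hkey d hd hdτ
    rw [a0 c hc1]
    refine ⟨a2.2 hG, ?_⟩
    rw [← a4 hG hN]
    have a5 := (hcast d).2 (h1.2 ⟨h3, h4⟩ d hd hdτ)
    linarith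

open Classical in
/-- **The theorem.** -/
theorem result :
    (∀ (q : ℕ) [NeZero q] (H : Subgroup (ZMod q)ˣ), ∃ c : ℝ, IsConst (lamH q H) 1 c ∧
      (Bounded (A (lamH q H) 1 c) ↔ GRHH q H) ∧
      (GRHH q H → Summable (fun t : OrdsH q H => 2 * (totalH q H t / (1 / 4 + (t : ℝ) ^ 2))) ∧
        limsup (A (lamH q H) 1 c) atTop = 4 * totalH q H 0 + SH q H ∧
        4 * totalH q H 0 - SH q H ≤ liminf (A (lamH q H) 1 c) atTop ∧
        (liminf (A (lamH q H) 1 c) atTop = 4 * totalH q H 0 - SH q H ↔ NoOdd (OrdsH q H))) ∧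
      (Bounded (A (lamH q H) 1 c) ∧ liminf (A (lamH q H) 1 c) atTop = -limsup (A (lamH q H) 1 c) atTop ↔
        GRHH q H ∧ NoOdd (OrdsH q H) ∧ ∀ χ : Chars q H, χ.1 ≠ 1 → LFunction χ.1 (1 / 2) ≠ 0)) ∧
    (∀ (J : Type) [Fintype J] (L : J → LFun) (d : J → ℕ), (∀ j, 1 ≤ d j) →
      (∀ n, ArithmeticFunction.vonMangoldt n ≠ 0 → (∑ j, (d j : ℂ) * (L j).c n).im = 0) →
      ∃ c : ℝ, IsConst (lam L d) (pole L d) c ∧
      (Bounded (A (lam L d) (pole L d) c) ↔ GRH L) ∧
      (Bounded (A (lam L d) (pole L d) c) ∧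
        liminf (A (lam L d) (pole L d) c) atTop = -limsup (A (lam L d) (pole L d) c) atTop ↔
        GRH L ∧ NoOdd (Ords L) ∧ ∀ j, (L j).Λ (1 / 2) ≠ 0)) ∧
    (∀ (J : Type) [Fintype J] (L : J → LFun) (τ : J ≃ J), (∀ j, τ (τ j) = j) → (∀ j n, (L (τ j)).c n = conj ((L j).c n)) →
      ∀ S : Set J, (∀ j ∈ S, τ j = j) → ∀ M0 : ℕ,
      ((∀ d : J → ℕ, (∀ j, 1 ≤ d j) → (∀ j, d (τ j) = d j) → ∀ c : ℝ, IsConst (lam L d) (pole L d) c →
          Bounded (A (lam L d) (pole L d) c) ∧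
          limsup (A (lam L d) (pole L d) c) atTop + liminf (A (lam L d) (pole L d) c) atTop ≤
            8 * (M0 * ∑ j, if j ∈ S then (d j : ℝ) else 0)) →
        GRH L ∧ (∀ j, j ∉ S → (L j).Λ (1 / 2) ≠ 0) ∧ ∀ j ∈ S, ordAt (L j).Λ (1 / 2) ≤ M0) ∧
      (NoOdd (Ords L) → GRH L ∧ (∀ j, j ∉ S → (L j).Λ (1 / 2) ≠ 0) ∧ (∀ j ∈ S, ordAt (L j).Λ (1 / 2) ≤ M0) →
        ∀ d : J → ℕ, (∀ j, 1 ≤ d j) → (∀ j, d (τ j) = d j) → ∀ c : ℝ, IsConst (lam L d) (pole L d) c →
          Bounded (A (lam L d) (pole L d) c) ∧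
          limsup (A (lam L d) (pole L d) c) atTop + liminf (A (lam L d) (pole L d) c) atTop ≤
            8 * (M0 * ∑ j, if j ∈ S then (d j : ℝ) else 0))) ∧
    (∀ (J : Type) (L : J → LFun), Independent L → NoOdd (Ords L)) :=
  ⟨fun q _ H => abelian q H, fun _ _ L d hd hr => by
      obtain ⟨c, h1, h2, -, -, h5⟩ := key L d hd hr
      exact ⟨c, h1, h2, h5⟩,
    fun _ _ L τ h1 h2 S h3 M0 => orders L τ h1 h2 S h3 M0, fun _ L h => independent_noOdd L h⟩

end Pool.Agent.Results.MP_347b49_nt.SymmetricOscillation
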